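import Pool.Agent.Q211.Ulam.Final

open MeasureTheory ProbabilityTheory Filter
open scoped Topology
open Pool.Agent.Q211.Ulam

namespace Pool.Agent.Results.MP_a2947a_pr.Bounds

/-- Growth constants of the moments of the Ulam-Kac adder. -/
theorem result {Ω : Type*} [MeasurableSpace Ω] {μ : Measure Ω} [IsProbabilityMeasure μ]
    {U : ℕ → Ω → ℕ} {X : ℕ → Ω → ℝ} (hX : IsUlamKac μ U X) (m : ℕ) (hm : 1 ≤ m) :
    (∀ c : ℝ, Tendsto (fun n : ℕ => Real.log (∫ ω, X n ω ^ m ∂μ) / √(n : ℝ)) atTop (𝓝 c) →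
      (0.3 * (m : ℝ) ≤ Real.log c ∧ Real.log c ≤ 0.4 * m + 1) ∧
      2 * √((2 : ℝ) ^ m - 1) ≤ c ∧ c ≤ 2 * Lam m) ∧
    (∀ ε : ℝ, 0 < ε → ∀ᶠ n : ℕ in atTop,
      (2 * √((2 : ℝ) ^ m - 1) - ε) * √(n : ℝ) ≤ Real.log (∫ ω, X n ω ^ m ∂μ) ∧
      Real.log (∫ ω, X n ω ^ m ∂μ) ≤ (2 * Lam m + ε) * √(n : ℝ)) ∧
    (0.3 * (m : ℝ) ≤ Real.log (2 * √((2 : ℝ) ^ m - 1)) ∧
      Real.log (2 * Lam m) ≤ 0.4 * m + 1) := by
  have hmain : ∀ ε : ℝ, 0 < ε → ∀ᶠ n : ℕ in atTop,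
      (2 * √((2 : ℝ) ^ m - 1) - ε) * √(n : ℝ) ≤ Real.log (∫ ω, X n ω ^ m ∂μ) ∧
      Real.log (∫ ω, X n ω ^ m ∂μ) ≤ (2 * Lam m + ε) * √(n : ℝ) := fun ε hε =>
    (log_lower hX hm hε).and (log_upper hX hm hε)
  refine ⟨fun c hc => ?_, hmain, log_lo_ge m hm, log_Lam_le m hm⟩
  have hs1 : (0 : ℝ) < √((2 : ℝ) ^ m - 1) := by
    have : (2 : ℝ) ^ 1 ≤ 2 ^ m := pow_le_pow_right₀ one_le_two hm
    exact Real.sqrt_pos.2 (by linarith)
  have hlo : 2 * √((2 : ℝ) ^ m - 1) ≤ c := by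
    refine le_of_forall_pos_le_add fun ε hε => ?_
    have h1 : 2 * √((2 : ℝ) ^ m - 1) - ε ≤ c := by
      refine ge_of_tendsto hc ?_
      filter_upwards [hmain ε hε, eventually_ge_atTop 1] with n hn hn1
      have h0 : (0 : ℝ) < √(n : ℝ) := Real.sqrt_pos.2 (by exact_mod_cast hn1)
      rw [le_div_iff₀ h0]
      exact hn.1
    linarith
  have hhi : c ≤ 2 * Lam m := by
    refine le_of_forall_pos_le_add fun ε hε => ?_
    refine le_of_tendsto hc ?_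
    filter_upwards [hmain ε hε, eventually_ge_atTop 1] with n hn hn1
    have h0 : (0 : ℝ) < √(n : ℝ) := Real.sqrt_pos.2 (by exact_mod_cast hn1)
    rw [div_le_iff₀ h0]
    exact hn.2
  have hc0 : 0 < c := by linarith
  exact ⟨⟨(log_lo_ge m hm).trans (Real.log_le_log (by linarith) hlo),
    (Real.log_le_log hc0 hhi).trans (log_Lam_le m hm)⟩, hlo, hhi⟩

end Pool.Agent.Results.MP_a2947a_pr.Bounds
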